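import Pool.Agent.W173.KG.Iso

/-!
The case `n = 2`: the kagome lattice with 12 vertices (the line graph of the cube).
-/

namespace Pool.Agent.W173.KG

open Pool.Agent.H411R2.WSK Finset

abbrev I2 := (ZMod 2 × ZMod 2) × Fin 3

/-- colours of the three edges at each of the four vertices -/
def mk (d0 d1 d2 p0 p1 p2 q0 q1 q2 r0 r1 r2 : Fin 3) : I2 → Fin 3 := fun v =>
  if v = ((0, 0), 0) then d0 else if v = ((0, 0), 1) then d1 else if v = ((0, 0), 2) then d2 else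
  if v = ((0, 1), 0) then p0 else if v = ((0, 1), 1) then p1 else if v = ((0, 1), 2) then p2 else
  if v = ((1, 0), 0) then q0 else if v = ((1, 0), 1) then q1 else if v = ((1, 0), 2) then q2 else
  if v = ((1, 1), 0) then r0 else if v = ((1, 1), 1) then r1 else r2

theorem all_I2 : ∀ v : I2, v = ((0, 0), 0) ∨ v = ((0, 0), 1) ∨ v = ((0, 0), 2) ∨
    v = ((0, 1), 0) ∨ v = ((0, 1), 1) ∨ v = ((0, 1), 2) ∨
    v = ((1, 0), 0) ∨ v = ((1, 0), 1) ∨ v = ((1, 0), 2) ∨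
    v = ((1, 1), 0) ∨ v = ((1, 1), 1) ∨ v = ((1, 1), 2) := by decide

theorem eq_mk (c : I2 → Fin 3) : c = mk (c ((0, 0), 0)) (c ((0, 0), 1)) (c ((0, 0), 2))
    (c ((0, 1), 0)) (c ((0, 1), 1)) (c ((0, 1), 2)) (c ((1, 0), 0)) (c ((1, 0), 1)) (c ((1, 0), 2))
    (c ((1, 1), 0)) (c ((1, 1), 1)) (c ((1, 1), 2)) := by
  funext v
  rcases all_I2 v with h | h | h | h | h | h | h | h | h | h | h | h <;> subst h <;> rfl

set_option synthInstance.maxSize 2000 in
/-- the four colourings, up to permutations of the colours -/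
theorem four : ∀ p0 p1 : Fin 3, p0 ≠ p1 → ∀ p2 : Fin 3, p2 ≠ p0 → p2 ≠ p1 → p2 ≠ 0 →
    ∀ q1 : Fin 3, q1 ≠ 0 → q1 ≠ p2 → ∀ q0 : Fin 3, q0 ≠ q1 → q0 ≠ 1 → ∀ q2 : Fin 3, q2 ≠ q0 →
    q2 ≠ q1 → q2 ≠ p1 → ∀ r1 : Fin 3, r1 ≠ 2 → p0 ≠ 2 → r1 ≠ p0 → ∀ r2 : Fin 3, r2 ≠ q0 → r2 ≠ 1 →
    r2 ≠ r1 → ∀ r0 : Fin 3, r0 ≠ r1 → r0 ≠ r2 → r0 ≠ p1 → r0 ≠ q2 →
    ([p0, p1, p2, q0, q1, q2, r0, r1, r2] : List (Fin 3)) = [0, 1, 2, 0, 1, 2, 0, 1, 2] ∨
    ([p0, p1, p2, q0, q1, q2, r0, r1, r2] : List (Fin 3)) = [0, 2, 1, 0, 2, 1, 0, 1, 2] ∨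
    ([p0, p1, p2, q0, q1, q2, r0, r1, r2] : List (Fin 3)) = [1, 0, 2, 0, 1, 2, 1, 0, 2] ∨
    ([p0, p1, p2, q0, q1, q2, r0, r1, r2] : List (Fin 3)) = [0, 1, 2, 2, 1, 0, 2, 1, 0] := by
  decide +kernel

instance (n : ℕ) : DecidableRel (kag n).Adj := fun u v => decidable_of_iff _ (kag_adj n u v).symm

/-- a closed swap given by a finite set -/
theorem conn_finset {c c' : I2 → Fin 3} (hc : ∀ v w, (kag 2).Adj v w → c v ≠ c w) {a b : Fin 3}
    (hab : a ≠ b) (U : Finset I2) (h1 : ∀ v ∈ U, c v = a ∨ c v = b)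
    (h2 : ∀ v ∈ U, ∀ w, (kag 2).Adj v w → (c w = a ∨ c w = b) → w ∈ U)
    (h3 : ∀ v, c' v = if v ∈ U then Equiv.swap a b (c v) else c v) : Conn (kag 2) c c' := by
  refine conn_of_closed hc hab (U := (U : Set I2)) ⟨?_, ?_⟩ ⟨?_, ?_⟩
  · intro v hv; exact h1 v (by simpa using hv)
  · intro v hv w hvw hw
    simpa using h2 v (by simpa using hv) w hvw hw
  · intro v hv; rw [h3, if_pos (by simpa using hv)]
  · intro v hv; rw [h3, if_neg (by simpa using hv)]

def base : I2 → Fin 3 := mk 0 1 2 0 1 2 0 1 2 0 1 2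

theorem base_proper : ∀ v w, (kag 2).Adj v w → base v ≠ base w := by decide +kernel

theorem kag2 : WSKErgodic (kag 2) 3 := by
  refine ergodic_of_conn (base := base) ?_
  intro c hc
  have hA : ∀ (x : ZMod 2 × ZMod 2) (s t : Fin 3), s ≠ t → c (x, s) ≠ c (x, t) := by
    intro x s t h
    exact hc _ _ (by rw [kag_adj]; exact ⟨h, Or.inl rfl⟩)
  -- a permutation taking the colours at the first vertex to `0, 1, 2`
  have hinj : Function.Injective (fun t : Fin 3 => c ((0, 0), t)) := by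
    intro s t h
    by_contra hne
    exact hA _ _ _ hne h
  let σ : Equiv.Perm (Fin 3) := (Equiv.ofBijective _ (Finite.injective_iff_bijective.mp hinj)).symm
  have hσ : ∀ t, σ (c ((0, 0), t)) = t := by
    intro t
    exact (Equiv.ofBijective _ (Finite.injective_iff_bijective.mp hinj)).symm_apply_apply t
  refine (Conn.perm hc σ).trans ?_
  have hd := proper_perm hc σ
  generalize hdd : (fun v => σ (c v)) = d at hd
  have d0 : ∀ t, d ((0, 0), t) = t := by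
    intro t; rw [← hdd]; exact hσ t
  have hA' : ∀ (x : ZMod 2 × ZMod 2) (s t : Fin 3), s ≠ t → d (x, s) ≠ d (x, t) := by
    intro x s t h
    exact hd _ _ (by rw [kag_adj]; exact ⟨h, Or.inl rfl⟩)
  have key := four (d ((0, 1), 0)) (d ((0, 1), 1)) (hA' _ _ _ (by decide)) (d ((0, 1), 2))
    (hA' _ _ _ (by decide)) (hA' _ _ _ (by decide))
    (by rw [← d0 0]; exact hd _ _ (by decide +kernel)) (d ((1, 0), 1))
    (by rw [← d0 0]; exact hd _ _ (by decide +kernel)) (hd _ _ (by decide +kernel)) (d ((1, 0), 0))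
    (hA' _ _ _ (by decide)) (by rw [← d0 1]; exact hd _ _ (by decide +kernel)) (d ((1, 0), 2))
    (hA' _ _ _ (by decide)) (hA' _ _ _ (by decide)) (hd _ _ (by decide +kernel)) (d ((1, 1), 1))
    (by rw [← d0 2]; exact hd _ _ (by decide +kernel))
    (by rw [← d0 2]; exact hd _ _ (by decide +kernel)) (hd _ _ (by decide +kernel)) (d ((1, 1), 2))
    (hd _ _ (by decide +kernel)) (by rw [← d0 1]; exact hd _ _ (by decide +kernel))
    (hA' _ _ _ (by decide)) (d ((1, 1), 0)) (hA' _ _ _ (by decide)) (hA' _ _ _ (by decide))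
    (hd _ _ (by decide +kernel)) (hd _ _ (by decide +kernel))
  have hdm := eq_mk d
  rw [d0 0, d0 1, d0 2] at hdm
  simp only [List.cons.injEq, and_true] at key
  rcases key with ⟨a1, a2, a3, a4, a5, a6, a7, a8, a9⟩ | ⟨a1, a2, a3, a4, a5, a6, a7, a8, a9⟩ |
    ⟨a1, a2, a3, a4, a5, a6, a7, a8, a9⟩ | ⟨a1, a2, a3, a4, a5, a6, a7, a8, a9⟩ <;>
    rw [a1, a2, a3, a4, a5, a6, a7, a8, a9] at hdm <;> subst hdm
  · exact Conn.refl hd
  · exact conn_finset hd (a := 1) (b := 2) (by decide)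
      {((0, 1), 1), ((0, 1), 2), ((1, 0), 1), ((1, 0), 2)} (by decide +kernel) (by decide +kernel)
      (by decide +kernel)
  · exact conn_finset hd (a := 0) (b := 1) (by decide)
      {((0, 1), 0), ((0, 1), 1), ((1, 1), 0), ((1, 1), 1)} (by decide +kernel) (by decide +kernel)
      (by decide +kernel)
  · exact conn_finset hd (a := 0) (b := 2) (by decide)
      {((1, 0), 0), ((1, 0), 2), ((1, 1), 0), ((1, 1), 2)} (by decide +kernel) (by decide +kernel)
      (by decide +kernel)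

theorem kagome2 : WSKErgodic (kagome 2) 3 := by
  have : Finite (honeycomb 2).edgeSet := Finite.of_surjective _ (ed_surj (n := 2))
  exact ergodic_iso (iso le_rfl).symm kag2

end Pool.Agent.W173.KG
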