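import Pool.Agent.W173.KG.Iso

/-!
The signed number of vertices of the honeycomb torus, modulo 4, is invariant under Kempe changes of
3-edge-colourings; the colourings coming from height functions.
-/

namespace Pool.Agent.W173.KG

open Pool.Agent.H411R2.WSK Finset

/-- orientation of a triple of colours -/
def sg (p q r : Fin 3) : ℤ :=
  if p = q ∨ q = r ∨ p = r then 0 else if q = p + 1 then 1 else -1

/-- Boolean form of the hypotheses of `sg_swap` -/
def hyp (a b g0 g1 g2 : Fin 3) (u0 u1 u2 : Bool) : Prop :=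
  a ≠ b ∧ g0 ≠ g1 ∧ g0 ≠ g2 ∧ g1 ≠ g2 ∧
    (u0 = true → g0 = a ∨ g0 = b) ∧ (u1 = true → g1 = a ∨ g1 = b) ∧ (u2 = true → g2 = a ∨ g2 = b) ∧
    (u0 = true → (g1 = a ∨ g1 = b) → u1 = true) ∧ (u0 = true → (g2 = a ∨ g2 = b) → u2 = true) ∧
    (u1 = true → (g0 = a ∨ g0 = b) → u0 = true) ∧ (u1 = true → (g2 = a ∨ g2 = b) → u2 = true) ∧
    (u2 = true → (g0 = a ∨ g0 = b) → u0 = true) ∧ (u2 = true → (g1 = a ∨ g1 = b) → u1 = true)

instance (a b g0 g1 g2 : Fin 3) (u0 u1 u2 : Bool) : Decidable (hyp a b g0 g1 g2 u0 u1 u2) := by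
  unfold hyp; infer_instance

theorem sg_swap : ∀ (a b g0 g1 g2 : Fin 3) (u0 u1 u2 : Bool), hyp a b g0 g1 g2 u0 u1 u2 →
    (sg (cond u0 (Equiv.swap a b g0) g0) (cond u1 (Equiv.swap a b g1) g1)
      (cond u2 (Equiv.swap a b g2) g2) - sg g0 g1 g2 -
      2 * ((if u0 = true ∧ g0 = a then 1 else 0) + (if u1 = true ∧ g1 = a then 1 else 0) +
        (if u2 = true ∧ g2 = a then 1 else 0))) % 4 = 0 := by
  decide +kernel

section

variable {n : ℕ} [NeZero n]

/-- signed number of the vertices -/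
def S (c : (ZMod n × ZMod n) × Fin 3 → Fin 3) : ℤ :=
  ∑ x : ZMod n × ZMod n, (sg (c (x, 2)) (c (x, 1)) (c (x, 0)) +
    sg (c (x + (0, 1), 2)) (c (x + (1, 0), 1)) (c (x, 0)))

theorem S_swap {c c' : (ZMod n × ZMod n) × Fin 3 → Fin 3}
    (hc : ∀ v w, (kag n).Adj v w → c v ≠ c w) {a b : Fin 3} (hab : a ≠ b)
    {U : Set ((ZMod n × ZMod n) × Fin 3)} (hU : Closed (kag n) c a b U) (hs : IsSwap c c' a b U) :
    ∃ t : ℤ, S c' = S c + 4 * t := by
  classical
  let u : (ZMod n × ZMod n) × Fin 3 → Bool := fun v => decide (v ∈ U)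
  have hu : ∀ v, u v = true ↔ v ∈ U := fun v => by simp [u]
  have hc' : ∀ v, c' v = cond (u v) (Equiv.swap a b (c v)) (c v) := by
    intro v
    by_cases h : v ∈ U
    · rw [(hu v).mpr h, hs.1 v h]; rfl
    · have : u v = false := by simpa [u] using h
      rw [this, hs.2 v h]; rfl
  let w : (ZMod n × ZMod n) × Fin 3 → ℤ := fun v => if u v = true ∧ c v = a then 1 else 0
  -- local statement
  have loc : ∀ v0 v1 v2, (kag n).Adj v0 v1 → (kag n).Adj v0 v2 → (kag n).Adj v1 v2 →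
      ∃ t : ℤ, sg (c' v0) (c' v1) (c' v2) = sg (c v0) (c v1) (c v2) + 2 * (w v0 + w v1 + w v2) +
        4 * t := by
    intro v0 v1 v2 h01 h02 h12
    have := sg_swap a b (c v0) (c v1) (c v2) (u v0) (u v1) (u v2) ⟨hab, hc _ _ h01, hc _ _ h02,
      hc _ _ h12, (fun h => hU.1 _ ((hu _).mp h)), (fun h => hU.1 _ ((hu _).mp h)),
      (fun h => hU.1 _ ((hu _).mp h)),
      (fun h h' => (hu _).mpr (hU.2 _ ((hu _).mp h) _ h01 h')),
      (fun h h' => (hu _).mpr (hU.2 _ ((hu _).mp h) _ h02 h')),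
      (fun h h' => (hu _).mpr (hU.2 _ ((hu _).mp h) _ h01.symm h')),
      (fun h h' => (hu _).mpr (hU.2 _ ((hu _).mp h) _ h12 h')),
      (fun h h' => (hu _).mpr (hU.2 _ ((hu _).mp h) _ h02.symm h')),
      (fun h h' => (hu _).mpr (hU.2 _ ((hu _).mp h) _ h12.symm h'))⟩
    rw [← hc', ← hc', ← hc'] at this
    obtain ⟨t, ht⟩ := Int.dvd_of_emod_eq_zero this
    exact ⟨t, by simp only [w]; linarith⟩
  have adjA : ∀ (x : ZMod n × ZMod n) (s t : Fin 3), s ≠ t → (kag n).Adj (x, s) (x, t) := by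
    intro x s t h
    rw [kag_adj]
    exact ⟨h, Or.inl rfl⟩
  have adjB : ∀ (x : ZMod n × ZMod n) (s t : Fin 3), s ≠ t →
      (kag n).Adj (x + dl n s, s) (x + dl n t, t) := by
    intro x s t h
    rw [kag_adj]
    refine ⟨h, Or.inr ?_⟩
    simp
  have A : ∀ x : ZMod n × ZMod n, ∃ t : ℤ, sg (c' (x, 2)) (c' (x, 1)) (c' (x, 0)) =
      sg (c (x, 2)) (c (x, 1)) (c (x, 0)) + 2 * (w (x, 2) + w (x, 1) + w (x, 0)) + 4 * t :=
    fun x => loc _ _ _ (adjA x 2 1 (by decide)) (adjA x 2 0 (by decide)) (adjA x 1 0 (by decide))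
  have B : ∀ x : ZMod n × ZMod n, ∃ t : ℤ,
      sg (c' (x + (0, 1), 2)) (c' (x + (1, 0), 1)) (c' (x, 0)) =
      sg (c (x + (0, 1), 2)) (c (x + (1, 0), 1)) (c (x, 0)) +
        2 * (w (x + (0, 1), 2) + w (x + (1, 0), 1) + w (x, 0)) + 4 * t := by
    intro x
    have h1 := adjB x 2 1 (by decide)
    have h2 := adjB x 2 0 (by decide)
    have h3 := adjB x 1 0 (by decide)
    rw [dl2, dl1] at h1
    rw [dl2, dl0, add_zero] at h2
    rw [dl1, dl0, add_zero] at h3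
    exact loc _ _ _ h1 h2 h3
  choose tA hA using A
  choose tB hB using B
  have s1 : ∑ x : ZMod n × ZMod n, w (x + (0, 1), 2) = ∑ x : ZMod n × ZMod n, w (x, 2) :=
    sum_shift (fun x => w (x, 2)) (0, 1)
  have s2 : ∑ x : ZMod n × ZMod n, w (x + (1, 0), 1) = ∑ x : ZMod n × ZMod n, w (x, 1) :=
    sum_shift (fun x => w (x, 1)) (1, 0)
  refine ⟨∑ x : ZMod n × ZMod n, (tA x + tB x + w (x, 0) + w (x, 1) + w (x, 2)), ?_⟩
  unfold S
  simp only [hA, hB, sum_add_distrib, ← mul_sum, s1, s2]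
  ring

theorem S_reach {c c' : (kag n).Coloring (Fin 3)}
    (h : Relation.ReflTransGen KempeStep c c') : ∃ t : ℤ, S (c' : _ → Fin 3) = S (c : _ → Fin 3) + 4 * t := by
  induction h with
  | refl => exact ⟨0, by ring⟩
  | tail _ hstep ih =>
    obtain ⟨a, b, hab, U, hU, hs⟩ := hstep.closed
    rename_i d e _
    obtain ⟨t, ht⟩ := ih
    obtain ⟨t', ht'⟩ := S_swap (fun v w h => d.valid h) hab hU hs
    exact ⟨t + t', by rw [ht', ht]; ring⟩

end

/-- the colour of a step -/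
def vc (x y : ℤ) : Fin 3 := if x = 1 then 0 else if y = 1 then 1 else 2

theorem sg_vc {x y z w u v : ℤ} (h1 : VS x y) (h2 : VS z w) (h3 : VS u v) (hs : x + z + u = 0)
    (ht : y + w + v = 0) : sg (vc x y) (vc z w) (vc u v) = x * w - y * z ∧
      vc x y ≠ vc z w ∧ vc x y ≠ vc u v ∧ vc z w ≠ vc u v := by
  rcases h1 with ⟨rfl, rfl⟩ | ⟨rfl, rfl⟩ | ⟨rfl, rfl⟩ <;>
    rcases h2 with ⟨rfl, rfl⟩ | ⟨rfl, rfl⟩ | ⟨rfl, rfl⟩ <;>
    rcases h3 with ⟨rfl, rfl⟩ | ⟨rfl, rfl⟩ | ⟨rfl, rfl⟩ <;>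
    first
    | decide
    | (exfalso; revert hs ht; norm_num)

/-- For `k ≡ n (mod 3)` with `0 ≤ k ≤ n` there is a 3-colouring of `K_n` with signed number of
vertices `2 k²`. -/
theorem exists_col (k m : ℤ) (n : ℕ) (hk : 0 ≤ k) (hm : 0 ≤ m) (hn : (n : ℤ) = k + 3 * m)
    (hn2 : 2 ≤ n) :
    ∃ c : (kag n).Coloring (Fin 3), haveI : NeZero n := ⟨by omega⟩; S (c : _ → Fin 3) = 2 * k ^ 2 := by
  have : NeZero n := ⟨by omega⟩
  obtain ⟨P, Q, p1, q1, p2, q2, s1, s2, s3⟩ := exists_height k m n hk hm hn (by omega)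
  let f2 : ℤ → ℤ → Fin 3 := fun i j => vc (P (i + 1) j - P i j) (Q (i + 1) j - Q i j)
  let f1 : ℤ → ℤ → Fin 3 := fun i j => vc (P i j - P i (j + 1)) (Q i j - Q i (j + 1))
  let f0 : ℤ → ℤ → Fin 3 := fun i j => vc (P i (j + 1) - P (i + 1) j) (Q i (j + 1) - Q (i + 1) j)
  have ei : ∀ i : ℤ, i + n + 1 = (i + 1) + n := by intro i; ring
  have f2p1 : ∀ i j, f2 (i + n) j = f2 i j := by
    intro i j; simp only [f2, ei, p1, q1]; congr 1 <;> ring
  have f2p2 : ∀ i j, f2 i (j + n) = f2 i j := by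
    intro i j; simp only [f2, p2, q2]; congr 1 <;> ring
  have f1p1 : ∀ i j, f1 (i + n) j = f1 i j := by
    intro i j; simp only [f1, p1, q1]; congr 1 <;> ring
  have f1p2 : ∀ i j, f1 i (j + n) = f1 i j := by
    intro i j; simp only [f1, ei, p2, q2]; congr 1 <;> ring
  have f0p1 : ∀ i j, f0 (i + n) j = f0 i j := by
    intro i j; simp only [f0, ei, p1, q1]; congr 1 <;> ring
  have f0p2 : ∀ i j, f0 i (j + n) = f0 i j := by
    intro i j; simp only [f0, ei, p2, q2]; congr 1 <;> ring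
  let F : Fin 3 → ℤ → ℤ → Fin 3 := fun t => if t = 0 then f0 else if t = 1 then f1 else f2
  have Fp1 : ∀ t i j, F t (i + n) j = F t i j := by
    intro t i j
    fin_cases t
    · exact f0p1 i j
    · exact f1p1 i j
    · exact f2p1 i j
  have Fp2 : ∀ t i j, F t i (j + n) = F t i j := by
    intro t i j
    fin_cases t
    · exact f0p2 i j
    · exact f1p2 i j
    · exact f2p2 i j
  let c : (ZMod n × ZMod n) × Fin 3 → Fin 3 := fun v => F v.2 (v.1.1.val : ℤ) (v.1.2.val : ℤ)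
  have hcc : ∀ (i j : ℤ) (t : Fin 3), c (((i : ZMod n), (j : ZMod n)), t) = F t i j := by
    intro i j t
    exact per_val2 (Fp1 t) (Fp2 t) i j
  have hsh : ∀ (x : ZMod n × ZMod n) (s t : ℤ) (r : Fin 3),
      c (x + ((s : ZMod n), (t : ZMod n)), r) = F r ((x.1.val : ℤ) + s) ((x.2.val : ℤ) + t) := by
    intro x s t r
    rw [add_cast1, hcc]
  have h10 : ∀ x, c (x + (1, 0), 1) = f1 ((x.1.val : ℤ) + 1) (x.2.val : ℤ) := by
    intro x; have := hsh x 1 0 1; simpa [F] using this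
  have h01 : ∀ x, c (x + (0, 1), 2) = f2 (x.1.val : ℤ) ((x.2.val : ℤ) + 1) := by
    intro x; have := hsh x 0 1 2; simpa [F] using this
  have up : ∀ x : ZMod n × ZMod n, sg (c (x, 2)) (c (x, 1)) (c (x, 0)) =
      (P ((x.1.val : ℤ) + 1) x.2.val - P x.1.val x.2.val) *
        (Q x.1.val x.2.val - Q x.1.val ((x.2.val : ℤ) + 1)) -
      (Q ((x.1.val : ℤ) + 1) x.2.val - Q x.1.val x.2.val) *
        (P x.1.val x.2.val - P x.1.val ((x.2.val : ℤ) + 1)) ∧
      c (x, 2) ≠ c (x, 1) ∧ c (x, 2) ≠ c (x, 0) ∧ c (x, 1) ≠ c (x, 0) := by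
    intro x
    exact sg_vc (s1 _ _) (s2 _ _) (s3 _ _) (by ring) (by ring)
  have dn : ∀ x : ZMod n × ZMod n, sg (c (x + (0, 1), 2)) (c (x + (1, 0), 1)) (c (x, 0)) =
      (P ((x.1.val : ℤ) + 1) ((x.2.val : ℤ) + 1) - P x.1.val ((x.2.val : ℤ) + 1)) *
        (Q ((x.1.val : ℤ) + 1) x.2.val - Q ((x.1.val : ℤ) + 1) ((x.2.val : ℤ) + 1)) -
      (Q ((x.1.val : ℤ) + 1) ((x.2.val : ℤ) + 1) - Q x.1.val ((x.2.val : ℤ) + 1)) *
        (P ((x.1.val : ℤ) + 1) x.2.val - P ((x.1.val : ℤ) + 1) ((x.2.val : ℤ) + 1)) ∧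
      c (x + (0, 1), 2) ≠ c (x + (1, 0), 1) ∧ c (x + (0, 1), 2) ≠ c (x, 0) ∧
      c (x + (1, 0), 1) ≠ c (x, 0) := by
    intro x
    rw [h10, h01]
    exact sg_vc (s1 _ _) (s2 _ _) (s3 _ _) (by ring) (by ring)
  have proper : ∀ {v w : (ZMod n × ZMod n) × Fin 3}, (kag n).Adj v w → c v ≠ c w := by
    rintro ⟨x, s⟩ ⟨y, t⟩ h
    rw [kag_adj] at h
    simp only at h
    obtain ⟨hne, h⟩ := h
    rcases h with rfl | h
    · obtain ⟨-, u1, u2, u3⟩ := up x
      fin_cases s <;> fin_cases t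
      · exact absurd rfl hne
      · exact u3.symm
      · exact u2.symm
      · exact u3
      · exact absurd rfl hne
      · exact u1.symm
      · exact u2
      · exact u1
      · exact absurd rfl hne
    · obtain ⟨z, rfl⟩ : ∃ z, x = z + dl n s := ⟨x - dl n s, by simp⟩
      rw [add_sub_cancel_right] at h
      have hy : y = z + dl n t := by rw [h]; simp
      subst hy
      obtain ⟨-, u1, u2, u3⟩ := dn z
      have z0 : z + dl n 0 = z := by rw [dl0, add_zero]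
      fin_cases s <;> fin_cases t
      · exact absurd rfl hne
      · show c (z + dl n 0, 0) ≠ c (z + (1, 0), 1); rw [z0]; exact u3.symm
      · show c (z + dl n 0, 0) ≠ c (z + (0, 1), 2); rw [z0]; exact u2.symm
      · show c (z + (1, 0), 1) ≠ c (z + dl n 0, 0); rw [z0]; exact u3
      · exact absurd rfl hne
      · exact u1.symm
      · show c (z + (0, 1), 2) ≠ c (z + dl n 0, 0); rw [z0]; exact u2
      · exact u1
      · exact absurd rfl hne
  refine ⟨SimpleGraph.Coloring.mk c proper, ?_⟩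
  show S c = _
  unfold S
  have hcell : ∀ x : ZMod n × ZMod n, sg (c (x, 2)) (c (x, 1)) (c (x, 0)) +
      sg (c (x + (0, 1), 2)) (c (x + (1, 0), 1)) (c (x, 0)) =
      - cell P Q (x.1.val : ℤ) (x.2.val : ℤ) := by
    intro x
    rw [(up x).1, (dn x).1]
    unfold cell
    ring
  simp only [hcell, sum_neg_distrib]
  rw [sum_torus n (fun i j => cell P Q i j), stokes n P Q k 0 0 (-k) p1 q1 p2 q2]
  ring

/-- For `n ≥ 3` the dynamics is not ergodic. -/
theorem kag_not {n : ℕ} (hn : 3 ≤ n) : ¬ WSKErgodic (kag n) 3 := by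
  intro herg
  have : NeZero n := ⟨by omega⟩
  obtain ⟨c, hc⟩ := exists_col n 0 n (by positivity) le_rfl (by ring) (by omega)
  obtain ⟨c', hc'⟩ := exists_col ((n : ℤ) - 3) 1 n (by omega) (by norm_num) (by ring) (by omega)
  obtain ⟨t, ht⟩ := S_reach (herg c c')
  rw [hc, hc'] at ht
  have e : ((n : ℤ) - 3) ^ 2 = (n : ℤ) ^ 2 - 6 * n + 9 := by ring
  rw [e] at ht
  omega

theorem kagome_not {n : ℕ} (hn : 3 ≤ n) : ¬ WSKErgodic (kagome n) 3 := by
  have : NeZero n := ⟨by omega⟩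
  intro h
  exact kag_not hn (ergodic_iso (iso (by omega)) h)

end Pool.Agent.W173.KG
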