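import Pool.Agent.H411R2.WSK.TriFam
import Pool.Agent.H411R2.WSK.Conn

/-!
A coordinate model of the periodic kagome lattice.
-/

namespace Pool.Agent.W173.KG

open Pool.Agent.H411R2.WSK Finset

/-- the three offsets `0, e₁, e₂` -/
def dl (n : ℕ) (t : Fin 3) : ZMod n × ZMod n :=
  if t = 0 then (0, 0) else if t = 1 then (1, 0) else (0, 1)

theorem dl0 (n : ℕ) : dl n 0 = 0 := rfl
theorem dl1 (n : ℕ) : dl n 1 = (1, 0) := rfl
theorem dl2 (n : ℕ) : dl n 2 = (0, 1) := rfl

/-- the coordinate model: `(x, t)` is the edge from `(x, A)` to `(x - dl t, B)` -/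
def kag (n : ℕ) : SimpleGraph ((ZMod n × ZMod n) × Fin 3) :=
  SimpleGraph.mk' ⟨fun u v => decide (u.2 ≠ v.2 ∧ (u.1 = v.1 ∨ u.1 - dl n u.2 = v.1 - dl n v.2)), by
    constructor
    · intro u v
      simp only [ne_eq, decide_eq_decide]
      constructor
      · rintro ⟨h, h' | h'⟩
        · exact ⟨fun e => h e.symm, Or.inl h'.symm⟩
        · exact ⟨fun e => h e.symm, Or.inr h'.symm⟩
      · rintro ⟨h, h' | h'⟩
        · exact ⟨fun e => h e.symm, Or.inl h'.symm⟩
        · exact ⟨fun e => h e.symm, Or.inr h'.symm⟩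
    · intro u
      simp⟩

theorem kag_adj (n : ℕ) (u v : (ZMod n × ZMod n) × Fin 3) :
    (kag n).Adj u v ↔ u.2 ≠ v.2 ∧ (u.1 = v.1 ∨ u.1 - dl n u.2 = v.1 - dl n v.2) := by
  simp [kag]

theorem dl_inj {n : ℕ} (hn : 2 ≤ n) : Function.Injective (dl n) := by
  have : Fact (1 < n) := ⟨hn⟩
  have h1 : (1 : ZMod n) ≠ 0 := one_ne_zero
  intro s t h
  fin_cases s <;> fin_cases t <;> simp_all [dl, Prod.ext_iff, h1.symm]

theorem honey_adj {n : ℕ} (x y : ZMod n × ZMod n) :
    (honeycomb n).Adj (Sum.inl x) (Sum.inr y) ↔ ∃ t, y = x - dl n t := by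
  unfold honeycomb
  rw [SimpleGraph.fromRel_adj]
  constructor
  · rintro ⟨-, ⟨z, hz, h⟩ | ⟨z, hz, h⟩⟩
    · cases hz
      rcases h with h | h | h
      · exact ⟨0, by rw [dl0, sub_zero]; exact Sum.inr_injective h⟩
      · exact ⟨1, by rw [dl1]; exact Sum.inr_injective h⟩
      · exact ⟨2, by rw [dl2]; exact Sum.inr_injective h⟩
    · cases hz
  · rintro ⟨t, ht⟩
    refine ⟨by simp, Or.inl ⟨x, rfl, ?_⟩⟩
    fin_cases t
    · left; rw [ht]; simp [dl]
    · right; left; rw [ht]; rfl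
    · right; right; rw [ht]; rfl

/-- the edge with given coordinates -/
def ed (n : ℕ) (u : (ZMod n × ZMod n) × Fin 3) : (honeycomb n).edgeSet :=
  ⟨s(Sum.inl u.1, Sum.inr (u.1 - dl n u.2)), by
    rw [SimpleGraph.mem_edgeSet, honey_adj]
    exact ⟨u.2, rfl⟩⟩

theorem ed_inj {n : ℕ} (hn : 2 ≤ n) : Function.Injective (ed n) := by
  rintro ⟨x, s⟩ ⟨y, t⟩ h
  have h' := congrArg Subtype.val h
  simp only [ed] at h'
  rw [Sym2.eq_iff] at h'
  rcases h' with ⟨h1, h2⟩ | ⟨h1, h2⟩
  · have e1 : x = y := Sum.inl_injective h1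
    subst e1
    have e2 := Sum.inr_injective h2
    have e3 : dl n s = dl n t := sub_right_injective e2
    rw [dl_inj hn e3]
  · cases h1

theorem ed_surj {n : ℕ} : Function.Surjective (ed n) := by
  rintro ⟨e, he⟩
  induction e using Sym2.ind with
  | _ a b =>
  rw [SimpleGraph.mem_edgeSet] at he
  rcases a with x | x <;> rcases b with y | y
  · exfalso
    unfold honeycomb at he
    rw [SimpleGraph.fromRel_adj] at he
    rcases he with ⟨-, ⟨z, hz, h⟩ | ⟨z, hz, h⟩⟩ <;> rcases h with h | h | h <;> cases h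
  · rw [honey_adj] at he
    obtain ⟨t, rfl⟩ := he
    exact ⟨(x, t), rfl⟩
  · have he' := he.symm
    rw [honey_adj] at he'
    obtain ⟨t, rfl⟩ := he'
    exact ⟨(y, t), Subtype.ext Sym2.eq_swap⟩
  · exfalso
    unfold honeycomb at he
    rw [SimpleGraph.fromRel_adj] at he
    rcases he with ⟨-, ⟨z, hz, h⟩ | ⟨z, hz, h⟩⟩ <;> cases hz

theorem ed_adj {n : ℕ} (hn : 2 ≤ n) (u v : (ZMod n × ZMod n) × Fin 3) :
    (kagome n).Adj (ed n u) (ed n v) ↔ (kag n).Adj u v := by
  rw [kag_adj]
  unfold kagome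
  rw [SimpleGraph.lineGraph_adj_iff_exists]
  obtain ⟨x, s⟩ := u
  obtain ⟨y, t⟩ := v
  constructor
  · rintro ⟨hne, w, h1, h2⟩
    simp only [ed, Sym2.mem_iff] at h1 h2
    rcases h1 with rfl | rfl <;> rcases h2 with h2 | h2
    · have e := Sum.inl_injective h2
      subst e
      exact ⟨fun h => hne (by have h9 : s = t := h; rw [h9]), Or.inl rfl⟩
    · cases h2
    · cases h2
    · have e := Sum.inr_injective h2
      refine ⟨fun h => hne ?_, Or.inr e⟩
      simp only at h
      subst h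
      have : x = y := sub_left_injective e
      rw [this]
  · rintro ⟨hne, h⟩
    simp only at hne h
    refine ⟨fun he => hne ?_, ?_⟩
    · have := ed_inj hn he
      exact congrArg Prod.snd this
    · rcases h with rfl | h
      · exact ⟨Sum.inl x, by simp [ed], by simp [ed]⟩
      · exact ⟨Sum.inr (x - dl n s), by simp [ed], by simp [ed, h]⟩

/-- the coordinate model is isomorphic to the kagome lattice -/
noncomputable def iso {n : ℕ} (hn : 2 ≤ n) : kag n ≃g kagome n where
  toEquiv := Equiv.ofBijective (ed n) ⟨ed_inj hn, ed_surj⟩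
  map_rel_iff' := by
    intro u v
    exact ed_adj hn u v

/-- ergodicity is invariant under isomorphisms -/
theorem ergodic_iso {V W : Type*} [Finite V] {G : SimpleGraph V} {H : SimpleGraph W} (φ : G ≃g H)
    {q : ℕ} (h : WSKErgodic H q) : WSKErgodic G q := by
  have key : ∀ d d' : H.Coloring (Fin q), Relation.ReflTransGen KempeStep d d' →
      Relation.ReflTransGen KempeStep (d.comp φ.toHom : G.Coloring (Fin q)) (d'.comp φ.toHom) := by
    intro d d' hd
    induction hd with
    | refl => exact Relation.ReflTransGen.refl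
    | tail _ hstep ih =>
      obtain ⟨a, b, hab, U, hU, hs⟩ := hstep.closed
      refine ih.trans (reach_of_closed hab _ _ _ (φ ⁻¹' U) rfl ⟨?_, ?_⟩ ⟨?_, ?_⟩)
      · intro v hv; exact hU.1 _ hv
      · intro v hv w hvw hw
        exact hU.2 _ hv _ (φ.map_rel_iff.mpr hvw) hw
      · intro v hv; exact hs.1 _ hv
      · intro v hv; exact hs.2 _ hv
  intro c c'
  have h1 := key _ _ (h (c.comp φ.symm.toHom) (c'.comp φ.symm.toHom))
  have e : ∀ c : G.Coloring (Fin q),
      ((c.comp φ.symm.toHom : H.Coloring (Fin q)).comp φ.toHom : G.Coloring (Fin q)) = c := by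
    intro c
    apply DFunLike.ext
    intro v
    show c (φ.symm (φ v)) = c v
    rw [φ.symm_apply_apply]
  rwa [e c, e c'] at h1

end Pool.Agent.W173.KG
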